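import Mathlib
import Pool.Agent.H456R3.S.F15

/-!
# MP_5ab436_an: optimal potentials have a bounded set of finiteness

The statement is for every dimension `d ≥ 1`, every `0 < p ≤ 1` and every `k ≥ 1`.
-/

set_option autoImplicit false

open MeasureTheory
open scoped ENNReal

namespace Pool.Agent.Results.MP_5ab436_an.BoundedFiniteness

/-- `g` is the weak gradient of `u` on `ℝ^d`. -/
def IsWeakGrad {d : ℕ} (u : (Fin d → ℝ) → ℝ) (g : Fin d → (Fin d → ℝ) → ℝ) : Prop :=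
  ∀ (i : Fin d) (φ : (Fin d → ℝ) → ℝ), ContDiff ℝ ((⊤ : ℕ∞) : WithTop ℕ∞) φ →
    HasCompactSupport φ →
    ∫ x, u x * fderiv ℝ φ x (Pi.single i (1 : ℝ)) = - ∫ x, g i x * φ x

/-- The functions `u 0, …, u (k-1)` lie in `H¹(ℝ^d)` with weak gradients `g 0, …, g (k-1)`, have
finite potential energy, and are linearly independent in `L²(ℝ^d)`. -/
def IsFrame {d k : ℕ} (V : (Fin d → ℝ) → ℝ≥0∞) (u : Fin k → (Fin d → ℝ) → ℝ)
    (g : Fin k → Fin d → (Fin d → ℝ) → ℝ) : Prop :=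
  (∀ j, MemLp (u j) 2 volume) ∧ (∀ j i, MemLp (g j i) 2 volume) ∧
    (∀ j, IsWeakGrad (u j) (g j)) ∧
    (∀ j, ∫⁻ x, V x * ENNReal.ofReal (u j x ^ 2) < ⊤) ∧
    (∀ c : Fin k → ℝ, c ≠ 0 → ∫⁻ x, ENNReal.ofReal ((∑ j, c j * u j x) ^ 2) ≠ 0)

/-- The Rayleigh quotient of `v = ∑ c j * u j`: the integral of `|∇v|² + V v²` divided by that of
`v²`. -/
noncomputable def rayleigh {d k : ℕ} (V : (Fin d → ℝ) → ℝ≥0∞) (u : Fin k → (Fin d → ℝ) → ℝ)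
    (g : Fin k → Fin d → (Fin d → ℝ) → ℝ) (c : Fin k → ℝ) : ℝ≥0∞ :=
  (∫⁻ x, ((∑ i, ENNReal.ofReal ((∑ j, c j * g j i x) ^ 2))
      + V x * ENNReal.ofReal ((∑ j, c j * u j x) ^ 2))) /
    ∫⁻ x, ENNReal.ofReal ((∑ j, c j * u j x) ^ 2)

/-- The `k`-th eigenvalue of `-Δ + V` on `ℝ^d`, by the min-max formula. -/
noncomputable def eigenvalue {d : ℕ} (k : ℕ) (V : (Fin d → ℝ) → ℝ≥0∞) : ℝ≥0∞ :=
  ⨅ (u : Fin k → (Fin d → ℝ) → ℝ) (g : Fin k → Fin d → (Fin d → ℝ) → ℝ) (_ : IsFrame V u g),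
    ⨆ (c : Fin k → ℝ) (_ : c ≠ 0), rayleigh V u g c

/-- The admissible class: measurable potentials with `∫ V^(-p) ≤ 1`. -/
def InClass {d : ℕ} (p : ℝ) (V : (Fin d → ℝ) → ℝ≥0∞) : Prop :=
  Measurable V ∧ ∫⁻ x, V x ^ (-p) ≤ 1

/-- `V` is an optimal potential for the `k`-th eigenvalue. -/
def IsOptimal {d : ℕ} (p : ℝ) (k : ℕ) (V : (Fin d → ℝ) → ℝ≥0∞) : Prop :=
  InClass p V ∧ ∀ W : (Fin d → ℝ) → ℝ≥0∞, InClass p W → eigenvalue k V ≤ eigenvalue k W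

lemma eigenvalue_eq {d k : ℕ} (V : (Fin d → ℝ) → ℝ≥0∞) :
    eigenvalue k V = Pool.Agent.H456R3.S.lamK k V := by
  unfold eigenvalue Pool.Agent.H456R3.S.lamK
  refine iInf_congr fun u => iInf_congr fun g => ?_
  refine iInf_congr_Prop ?_ fun _ => rfl
  constructor
  · rintro ⟨h1, h2, h3, h4, h5⟩
    exact ⟨h1, h2, fun j i φ hφ hc => h3 j i φ hφ hc, h4, h5⟩
  · rintro ⟨h1, h2, h3, h4, h5⟩
    exact ⟨h1, h2, fun j i φ hφ hc => h3 j i φ hφ hc, h4, h5⟩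

/-- Every optimal potential of `(P_k)` has a bounded set of finiteness, for all `d ≥ 1`,
`0 < p ≤ 1`, `k ≥ 1`. -/
theorem result (d : ℕ) (hd : 1 ≤ d) (p : ℝ) (hp0 : 0 < p) (hp1 : p ≤ 1) (k : ℕ) (hk : 1 ≤ k)
    (V : (Fin d → ℝ) → ℝ≥0∞) (hV : IsOptimal p k V) :
    ∃ R : ℝ, ∀ᵐ x, R < ‖x‖ → V x = ∞ := by
  refine Pool.Agent.H456R3.S.bounded_finiteness (k := k) hd hk hp0 hp1 hV.1.1 hV.1.2 ?_
  intro W hW hW1
  have := hV.2 W ⟨hW, hW1⟩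
  rwa [eigenvalue_eq, eigenvalue_eq] at this

end Pool.Agent.Results.MP_5ab436_an.BoundedFiniteness
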